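import Mathlib
import Pool.Agent.H.MP_0036f5_lc.D

namespace Pool.Agent.Results.MP_0036f5_lc.Single

open Pool.Agent.H.MP_0036f5_lc

theorem result (S Q G : Type) [Fintype S] [Fintype Q] [Fintype G] (M : LA S Q G) :
    ∃ (Q' G' : Type) (_ : Fintype Q') (_ : Fintype G') (M' : LA S Q' G'), M'.Det ∧ M'.Clean ∧
      Fintype.card Q' ≤ 2 ^ (50 * Fintype.card Q ^ 4) ∧ Fintype.card G' ≤ 3 * Fintype.card S + 1 ∧
      M'.size ≤ 2 ^ (55 * M.size ^ 4) ∧ ∀ w, M'.Accepts w ↔ M.Accepts w := by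
  obtain ⟨Q', G', _, _, M', h1, h2, h3, h4, h5⟩ := main M
  exact ⟨Q', G', _, _, M', h1, h2, h3, h4, size_le M M' h1 h3 h4, h5⟩

end Pool.Agent.Results.MP_0036f5_lc.Single
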